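import Mathlib
import Pool.Agent.MConv.Defs
import Pool.Agent.MConv.Main

/-!
# MP_4b1e7e_an — `B ≥ limsup A_n ≥ π² / 4`
-/

namespace Pool.Agent.Results.MP_4b1e7e_an.LowerBoundPiSq

open Filter Pool.Agent.MConv

/-- (1) For every real `c < π² / 4` there are infinitely many `n` for which some function of the
class `Ŝ^c` has `|a_n| > c`.
(2) `limsup A_n ≥ π² / 4` and `B ≥ π² / 4`, where `A_n` is the supremum of `|a_n|` over `Ŝ^c` and
`B` the supremum of the `A_n`, `n ≥ 2`.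
(3) `π² / 4 > 2.467`. -/
theorem result :
    (∀ c : ℝ, c < Real.pi ^ 2 / 4 → ∀ N : ℕ, ∃ n ≥ N, ∃ g ∈ HatClass, c < ‖coeff g n‖) ∧
    ENNReal.ofReal (Real.pi ^ 2 / 4) ≤ limsup A atTop ∧
    ENNReal.ofReal (Real.pi ^ 2 / 4) ≤ B ∧
    (2.467 : ℝ) < Real.pi ^ 2 / 4 :=
  ⟨fun _ hc N => exists_large hc N, main.1, main.2, by nlinarith [Real.pi_gt_d6]⟩

end Pool.Agent.Results.MP_4b1e7e_an.LowerBoundPiSq
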